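import Mathlib
import Pool.Agent.Lib.MP_2194ec_nt.RelMain
import Pool.Agent.Lib.MP_2194ec_nt.SB.CoreA

set_option autoImplicit false

/-!
# The sharp exponent: the core, with a larger range for the degree of the separating forms
-/

namespace Pool.DynLehmer.SH
open MvPolynomial NumberField Pool.DynLehmer Pool.DynLehmer.SB Filter Topology
open scoped Classical

section num

theorem corex_exp {q C' B2 lD θ : ℝ} {k Lv : ℕ} (hq : 2 ≤ q)
    (hB2 : B2 = ((k : ℝ) + 1) * Real.log q * C') (hC' : 0 ≤ C') (hlD : 0 ≤ lD) (hθ0 : 0 ≤ θ)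
    (hθ1 : θ ≤ 1) (hU3 : (Lv : ℝ) ≤ C' * (1 + lD) ^ θ) :
    q ^ ((k + 1) * Lv) ≤ Real.exp (B2 * (1 + lD ^ θ)) := by
  have hq0 : 0 < q := by linarith
  have hlogq : 0 < Real.log q := Real.log_pos (by linarith)
  rw [← Real.exp_log (show (0 : ℝ) < q ^ ((k + 1) * Lv) by positivity), Real.log_pow]
  apply Real.exp_le_exp.2
  push_cast
  have h1 : (1 + lD) ^ θ ≤ 1 + lD ^ θ := rpow_one_add_le hlD hθ0 hθ1
  have h2 : (Lv : ℝ) ≤ C' * (1 + lD ^ θ) := by
    refine hU3.trans ?_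
    gcongr
  calc ((k : ℝ) + 1) * Lv * Real.log q = (((k : ℝ) + 1) * Real.log q) * Lv := by ring
    _ ≤ (((k : ℝ) + 1) * Real.log q) * (C' * (1 + lD ^ θ)) := by gcongr
    _ = _ := by rw [hB2]; ring

theorem corex_logt {q a D t : ℝ} {Lv : ℕ} (hq : 2 ≤ q) (ha : 1 ≤ a) (hD : 1 ≤ D) (ht : 0 < t)
    (ht2 : t ≤ a ^ (Lv + 1) * D ^ 2) :
    Real.log t ≤ Real.log (4 * q) + Real.log (D ^ 2) + Real.log a * (Lv + 1) := by
  have h2 := Real.log_le_log ht ht2
  rw [Real.log_mul (by positivity) (by positivity), Real.log_pow a] at h2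
  have h3 : 0 ≤ Real.log (4 * q) := Real.log_nonneg (by linarith)
  push_cast at h2
  linarith

theorem corex_logn {n T : ℝ} {c : ℕ} (hn : 0 < n) (hle : n ≤ (T + 1) ^ c) :
    Real.log n ≤ (c : ℝ) * Real.log (T + 1) := by
  have h2 : Real.log n ≤ Real.log ((T + 1) ^ c) := Real.log_le_log hn hle
  rw [Real.log_pow] at h2
  exact h2

theorem corex_en {C0 C1 a D lam U Lv : ℝ} (hC00 : 0 ≤ C0) (hC1 : C1 = 2 * C0)
    (hloga : 0 ≤ Real.log a) (hD : 0 < D) (hLv : 1 ≤ Lv)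
    (hU2 : C1 * (1 + Real.log a * Lv + Real.log (Lv * D)) ≤ lam / 4 * (U * Lv)) :
    C0 * (1 + Real.log a * (Lv + 1) + Real.log (Lv * D ^ 2)) ≤ lam / 4 * (U * Lv) := by
  have hLv0 : 0 < Lv := by linarith
  have e1 : Real.log (Lv * D ^ 2) = Real.log Lv + 2 * Real.log D := by
    rw [Real.log_mul (by positivity) (by positivity), Real.log_pow]
    push_cast
    ring
  have e2 : Real.log (Lv * D) = Real.log Lv + Real.log D :=
    Real.log_mul (by positivity) (by positivity)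
  have e3 : 0 ≤ Real.log Lv := Real.log_nonneg hLv
  have e4 : Real.log a * (Lv + 1) ≤ 2 * (Real.log a * Lv) := by
    have : Real.log a * 1 ≤ Real.log a * Lv := mul_le_mul_of_nonneg_left hLv hloga
    linarith
  calc C0 * (1 + Real.log a * (Lv + 1) + Real.log (Lv * D ^ 2))
      ≤ C0 * (2 * (1 + Real.log a * Lv + Real.log (Lv * D))) := by
        apply mul_le_mul_of_nonneg_left _ hC00
        rw [e1, e2]
        linarith
    _ = C1 * (1 + Real.log a * Lv + Real.log (Lv * D)) := by rw [hC1]; ring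
    _ ≤ _ := hU2

theorem corex_fin {lam b q E t Hm hx' B2 y : ℝ} {j0 e1 : ℕ} (hb : 0 < b) (hq : 0 < q)
    (hE : 0 < E) (ht : 0 < t) (hx'nn : 0 ≤ hx') (hHm : Hm = q ^ (j0 + e1) * hx')
    (hj : q ^ j0 ≤ q * E) (hexp : q ^ e1 ≤ Real.exp (B2 * y))
    (hmain3 : lam ≤ 16 * b * q * t * Hm) :
    lam / (16 * b * q ^ 2) / (E * t) * Real.exp (-(B2 * y)) ≤ hx' := by
  have hfin2 : lam ≤ 16 * b * q ^ 2 * (E * t) * Real.exp (B2 * y) * hx' := by
    refine hmain3.trans ?_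
    rw [hHm, pow_add]
    calc 16 * b * q * t * (q ^ j0 * q ^ e1 * hx')
        ≤ 16 * b * q * t * ((q * E) * Real.exp (B2 * y) * hx') := by gcongr
      _ = _ := by ring
  calc lam / (16 * b * q ^ 2) / (E * t) * Real.exp (-(B2 * y))
      = lam / (16 * b * q ^ 2 * (E * t) * Real.exp (B2 * y)) := by
        rw [Real.exp_neg, ← div_eq_mul_inv, div_div, div_div]
        congr 1
        ring
    _ ≤ hx' := by
        rw [div_le_iff₀ (by positivity)]
        calc lam ≤ _ := hfin2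
          _ = _ := by ring

theorem corex_main {lam U Lv n N T Hm X : ℝ} (hn : 0 < n) (hN : 0 < N)
    (h : U * n / 2 * (Lv * (lam * N)) ≤ n * N * (T * Hm + X)) :
    lam / 2 * (U * Lv) ≤ T * Hm + X := by
  have h1 : (n * N) * (lam / 2 * (U * Lv)) ≤ (n * N) * (T * Hm + X) := by
    calc (n * N) * (lam / 2 * (U * Lv)) = U * n / 2 * (Lv * (lam * N)) := by ring
      _ ≤ _ := h
  exact le_of_mul_le_mul_left h1 (mul_pos hn hN)

end num

section core

variable {K : Type} [Field K] [NumberField K] {p s : ℕ} {ι : Type} [Fintype ι] [DecidableEq ι]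

theorem core_wide (hDo : DoubStatement) (hMo : MonoStatement) (hIn : IndepStatement)
    (hRo : RowsStatement) (hRk : RankStatement) (hLo : LocalStatement) (hE3 : Energy3Statement)
    (hEn : EndgStatement) [Nonempty ι] (hι : 2 ≤ Fintype.card ι) (hp : p.Prime) (hs : 1 ≤ s) (v : FinitePlace K)
    (Φ : GF (OW v) p s ι) (hϖ : v (Φ.ϖ : K) < 1) (hϖ0 : (Φ.ϖ : K) ≠ 0)
    (F : ι → MvPolynomial ι K) (hF : ∀ i, (F i).IsHomogeneous (p ^ s))
    (hz : ∀ z : ι → AlgebraicClosure K, (∀ i, aeval z (F i) = 0) → z = 0)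
    (hΦF : ∀ i, map (OW v).subtype (Φ.F i) = F i) (f' : ℕ) (hf' : 1 ≤ f') :
    ∃ k : ℕ, 1 ≤ k ∧ ∀ a : ℝ, 1 ≤ a → ∃ A B : ℝ, 0 < A ∧ 0 < B ∧
      ∀ (L N : Type) [Field L] [NumberField L] [Algebra K L]
      [Field N] [NumberField N] [Algebra K N]
      (S : Finset (FinitePlace N)) (e : FinitePlace N → ℕ) (τ : FinitePlace N → (N ≃ₐ[K] N))
      (E : ℕ), 1 ≤ E → Nat.card (L →ₐ[K] N) = Module.finrank K L →
      (∀ w ∈ S, Above v w (e w)) → (Module.finrank K N ≤ ∑ w ∈ S, e w) →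
      (∀ w ∈ S, ∀ a : N, w a ≤ 1 → w (τ w a - a ^ (p ^ f')) < 1) →
      (∀ w ∈ S, ∀ φ : L →ₐ[K] N, ∀ a : L, w (φ a) < 1 →
        (w (φ a)) ^ E ≤ w (toN v N Φ.ϖ)) →
      ∀ x : ι → L, x ≠ 0 →
      (¬ ∃ m n : ℕ, m ≠ n ∧ ∃ c : L, c ≠ 0 ∧ (gAct F L)^[n] x = c • (gAct F L)^[m] x) →
      ∃ h : ℝ, Tendsto (fun n : ℕ => Height.logHeight ((gAct F L)^[n] x) /
        (Module.finrank ℚ L : ℝ) / ((p ^ s : ℕ) : ℝ) ^ n) atTop (𝓝 h) ∧ 0 < h ∧
        ∀ D : ℝ, 1 ≤ D → ∃ r0 Lv : ℕ, 1 ≤ Lv ∧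
        ((p ^ s : ℕ) : ℝ) ^ ((k + 1) * Lv) ≤ Real.exp (B * (1 + (Real.log D) ^
          (((Fintype.card ι - 1 : ℕ) : ℝ) / (((Fintype.card ι - 1 : ℕ) : ℝ) + 1)))) ∧
        ((p ^ s : ℕ) : ℝ) ^ r0 ≤ ((p ^ s : ℕ) : ℝ) * E * ((p ^ s : ℕ) : ℝ) ^ Lv ∧
        (∀ l l' : ℕ, l ≠ l' → ∀ φ φ' : L →ₐ[K] N, ¬ ∃ c : N,
          (fun t => φ ((gAct F L)^[r0 + k * l] x t)) =
            c • fun t => φ' ((gAct F L)^[r0 + k * l'] x t)) ∧
        ∀ t : ℕ, 1 ≤ t → (t : ℝ) ≤ a ^ (Lv + 1) * D ^ 2 →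
          (∀ l' l : ℕ, l' < l → l < Lv → ∃ f : MvPolynomial ι K, f.IsHomogeneous t ∧
            aeval ((gAct F L)^[r0 + k * l'] x) f = 0 ∧
            aeval ((gAct F L)^[r0 + k * l] x) f ≠ 0) →
          A / ((E : ℝ) * t) * Real.exp (-(B * (1 + (Real.log D) ^
          (((Fintype.card ι - 1 : ℕ) : ℝ) / (((Fintype.card ι - 1 : ℕ) : ℝ) + 1))))) ≤ h := by
  have hq2 : 2 ≤ p ^ s := hp.two_le.trans (Nat.le_self_pow (by omega) p)
  have hq2r : (2 : ℝ) ≤ ((p ^ s : ℕ) : ℝ) := by exact_mod_cast hq2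
  obtain ⟨m0, hm01, hm0⟩ := exists_ggoodExp Φ hϖ hp
  obtain ⟨C, hC0, hC⟩ := height_morphism F (p ^ s) hF hz
  obtain ⟨b, hb1, hb⟩ := span_adapted F (p ^ s) hF hz
  set Λ : ℝ := - Real.log (v (Φ.ϖ : K)) with hΛ
  have hΛ0 : 0 < Λ := neg_pos.2 (Real.log_neg (FinitePlace.pos_iff.2 hϖ0) hϖ)
  have hKpos : (0 : ℝ) < Module.finrank ℚ K := by exact_mod_cast Module.finrank_pos
  set q : ℝ := ((p ^ s : ℕ) : ℝ) with hq
  have hq0 : 0 < q := by linarith
  set N' := Fintype.card ι - 1 with hN'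
  set lam : ℝ := Λ / Module.finrank ℚ K with hlam
  have hlam0 : 0 < lam := by positivity
  have hbpos : (0 : ℝ) < b := by exact_mod_cast hb1
  have hb1r : (1 : ℝ) ≤ b := by exact_mod_cast hb1
  set νr : ℝ := (Fintype.card ι : ℝ) with hνr
  have hνr0 : 0 ≤ νr := Nat.cast_nonneg _
  have hlog4bq : 0 ≤ Real.log (4 * b * q) := Real.log_nonneg (by nlinarith)
  have hlog8q : 0 ≤ Real.log (8 * q) := Real.log_nonneg (by linarith)
  set C0 : ℝ := (2 * b * C + νr + νr * Real.log (4 * b * q) + 2 * b * C) *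
    (1 + Real.log (8 * q)) with hC0'
  have hC00 : 0 ≤ C0 := by positivity
  set C1 : ℝ := 2 * C0 with hC1
  have hC10 : 0 ≤ C1 := by positivity
  have hm0pos : (0 : ℝ) < m0 := by exact_mod_cast hm01
  have hlogq : 0 < Real.log q := Real.log_pos (by linarith)
  set k := m0 * f' with hk
  have hkpos : 1 ≤ k := Nat.mul_pos hm01 hf'
  set c0 : ℕ := 2 * 3 ^ (Fintype.card ι) with hc0
  have hc01 : 1 ≤ c0 := Nat.mul_pos two_pos (pow_pos (by norm_num) _)
  refine ⟨k, hkpos, fun a ha => ?_⟩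
  have hloga : 0 ≤ Real.log a := Real.log_nonneg ha
  obtain ⟨C', hC'0, hC'⟩ := hEn (lam / 4) C1 (Real.log a) N' c0 (by positivity)
    hC10 hloga hc01
  set B2 : ℝ := ((k : ℝ) + 1) * Real.log q * C' with hB2
  have hB20 : 0 < B2 := by positivity
  refine ⟨lam / (16 * b * q ^ 2), B2, by positivity, hB20, ?_⟩
  intro L N _ _ _ _ _ _ S e τ E hE1 hcardLN hS hcard hfrob hram x hx hwand
  have hNpos : (0 : ℝ) < Module.finrank ℚ N := by exact_mod_cast Module.finrank_pos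
  have htower : (Module.finrank ℚ K : ℝ) * Module.finrank K N = Module.finrank ℚ N := by
    exact_mod_cast Module.finrank_mul_finrank ℚ K N
  have hfdKL : FiniteDimensional K L := Module.Finite.of_restrictScalars_finite ℚ K L
  have hact : (Φ.map (toN v N)).act = gAct F N := gact_eq_aeval Φ F hΦF N
  -- heights on `N`
  set H : (ι → N) → ℝ := fun z => Height.logHeight z / (Module.finrank ℚ N : ℝ) with hH
  have hHact : ∀ z, |H (gAct F N z) - q * H z| ≤ C := by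
    intro z
    simp only [hH]
    have h5 : Height.logHeight (gAct F N z) / (Module.finrank ℚ N : ℝ) -
        q * (Height.logHeight z / Module.finrank ℚ N) =
        (Height.logHeight (gAct F N z) - q * Height.logHeight z) / Module.finrank ℚ N := by
      field_simp
    rw [h5, abs_div, abs_of_pos hNpos, div_le_iff₀ hNpos]
    exact hC N z
  obtain ⟨hh, hlim, -, hdiff, hmul, -⟩ := commuting_heights H (gAct F N) (gAct F N)
    (fun _ => rfl) hq2r hq2r hHact hHact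
  have hmuln : ∀ (n : ℕ) z, hh ((gAct F N)^[n] z) = q ^ n * hh z := by
    intro n z
    induction n with
    | zero => simp
    | succ n ih => rw [Function.iterate_succ_apply', hmul, ih, pow_succ]; ring
  have hhsmul : ∀ (c : N) z, c ≠ 0 → hh (c • z) = hh z := by
    intro c z hc
    refine tendsto_nhds_unique (hlim (c • z)) ((hlim z).congr fun n => ?_)
    rw [gAct_iter_smul F hF]
    simp only [hH]
    rw [Height.logHeight_smul_eq_logHeight _ (pow_ne_zero _ hc)]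
  -- the canonical height of `x`
  have hDpos' : 0 < Module.finrank K L := Module.finrank_pos
  have hneLN : Nonempty (L →ₐ[K] N) := by
    rw [← Nat.card_pos_iff.trans (and_iff_left_of_imp fun _ => inferInstance), hcardLN]
    exact hDpos'
  obtain ⟨φ0⟩ := hneLN
  have hφiter : ∀ (φ : L →ₐ[K] N) (n : ℕ), H ((gAct F N)^[n] (fun t => φ (x t))) =
      Height.logHeight ((gAct F L)^[n] x) / (Module.finrank ℚ L : ℝ) := by
    intro φ n
    simp only [hH]
    rw [gAct_iter_map F φ n x]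
    exact logHeight_hom (φ : L →+* N) _
  set hx' := hh (fun t => φ0 (x t)) with hhx'
  have hlimx : Tendsto (fun n : ℕ => Height.logHeight ((gAct F L)^[n] x) /
        (Module.finrank ℚ L : ℝ) / ((p ^ s : ℕ) : ℝ) ^ n) atTop (𝓝 hx') := by
    refine (hlim (fun t => φ0 (x t))).congr fun n => ?_
    rw [hφiter]
  have hhφ : ∀ φ : L →ₐ[K] N, hh (fun t => φ (x t)) = hx' := by
    intro φ
    refine tendsto_nhds_unique (hlim _) (hlimx.congr fun n => ?_)
    rw [hφiter]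
  have hx'ne : hx' ≠ 0 := hhat_ne_zero hq2 F hF hz L x hx hwand hx' hlimx
  have hx'nn : 0 ≤ hx' :=
    ge_of_tendsto' hlimx fun n => div_nonneg (div_nonneg (Height.logHeight_nonneg _)
      (Nat.cast_nonneg _)) (pow_nonneg hq0.le _)
  have hx'pos : 0 < hx' := lt_of_le_of_ne hx'nn (Ne.symm hx'ne)
  have hφx : ∀ φ : L →ₐ[K] N, (fun t => φ (x t)) ≠ 0 := by
    intro φ h0
    apply hx
    funext t
    have := congrFun h0 t
    simpa using this
  refine ⟨hx', hlimx, hx'pos, ?_⟩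
  -- parameters
  intro D hD1
  obtain ⟨U, hU1, hU2, hU3⟩ := hC' D hD1
  set Lv : ℕ := c0 * U ^ N' with hLv
  have hLv1 : 1 ≤ Lv := Nat.mul_pos hc01 (pow_pos (by omega) _)
  obtain ⟨j0, hj01, hj02⟩ := exists_pow_between hq2 hE1
  obtain ⟨i0, hi0⟩ : ∃ i0, Lv = i0 + 1 := ⟨Lv - 1, by omega⟩
  set c := s * m0 with hc
  have hcpos : 1 ≤ c := Nat.mul_pos (by omega) hm01
  set θ : ℝ := (N' : ℝ) / ((N' : ℝ) + 1) with hθ
  have hθ0 : 0 ≤ θ := by positivity
  have hθ1 : θ ≤ 1 := by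
    rw [hθ, div_le_one (by positivity)]; linarith
  have hlogDnn : 0 ≤ Real.log D := Real.log_nonneg hD1
  have hexp : q ^ ((k + 1) * Lv) ≤ Real.exp (B2 * (1 + (Real.log D) ^ θ)) :=
    corex_exp hq2r hB2 hC'0.le hlogDnn hθ0 hθ1 hU3
  have hqj0 : q ^ j0 ≤ q * E := by rw [hq]; exact_mod_cast hj02
  have hEpos : (0 : ℝ) < E := by exact_mod_cast hE1
  -- the levels
  set y : ℕ → (ι → L) := fun l => (gAct F L)^[j0 + i0 + k * l] x with hy
  have hyne : ∀ l, y l ≠ 0 := fun l => gAct_iter_ne F hF hz _ _ hx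
  set Z : ℕ × (L →ₐ[K] N) → (ι → N) := fun a => fun t => a.2 (y a.1 t) with hZ
  have hZeq : ∀ a, Z a = (gAct F N)^[j0 + i0 + k * a.1] (fun t => a.2 (x t)) := by
    intro a
    rw [gAct_iter_map F a.2 _ x]
  have hZne : ∀ a, Z a ≠ 0 := fun a => by
    rw [hZeq]; exact gAct_iter_ne F hF hz _ _ (hφx _)
  have hhZ : ∀ a, hh (Z a) = q ^ (j0 + i0 + k * a.1) * hx' := by
    intro a
    rw [hZeq, hmuln, hhφ]
  have hlev : ∀ a a', (∃ c : N, Z a = c • Z a') → a.1 = a'.1 := by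
    rintro a a' ⟨c, h⟩
    have hc : c ≠ 0 := by
      rintro rfl
      rw [zero_smul] at h
      exact hZne a h
    have h1 := congrArg hh h
    rw [hhsmul _ _ hc, hhZ, hhZ] at h1
    have h2 := mul_right_cancel₀ hx'ne h1
    have h3 := pow_right_injective₀ hq0 (by linarith) h2
    have h4 : k * a.1 = k * a'.1 := by omega
    exact Nat.eq_of_mul_eq_mul_left (by omega) h4
  refine ⟨j0 + i0, Lv, hLv1, hexp, ?_, ?_, ?_⟩
  · rw [pow_add]
    have h1 : q ^ i0 ≤ q ^ Lv := pow_le_pow_right₀ (by linarith) (by omega)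
    exact mul_le_mul hqj0 h1 (pow_nonneg hq0.le _) (by positivity)
  · intro l l' hll φ φ' h1
    exact hll (hlev (l, φ) (l', φ') h1)
  intro t ht1 ht2 hsep
  -- closeness
  set π : FinitePlace N → ℝ := fun w => w (toN v N Φ.ϖ) with hπ
  have hπ0 : ∀ w, 0 < π w := by
    intro w
    rw [hπ, FinitePlace.pos_iff]
    change algebraMap K N (Φ.ϖ : K) ≠ 0
    simpa using hϖ0
  have hπ1 : ∀ w ∈ S, π w < 1 := fun w hw => gw_unif Φ (hS w hw) hϖ
  have hfin : Finite (L →ₐ[K] N) := inferInstance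
  have hkey : ∀ w ∈ S, ∀ (l l0 : ℕ) (φ : L →ₐ[K] N), ∃ φ' : L →ₐ[K] N,
      Close w (π w ^ Lv) (Z (l, φ)) (Z (l0, φ')) := by
    intro w hw l l0 φ
    obtain ⟨φ', h1⟩ := close_core hp hs Φ hϖ hϖ0 F hF hz hΦF hm0 (hS w hw) (τ w) hE1
      (hfrob w hw) (hram w hw) hj01 x hx i0 l l0 φ
    rw [← hi0] at h1
    exact ⟨φ', h1⟩
  -- the degree of the forms
  set M' : ℕ := 2 * Lv * t with hM'
  have hM'1 : 1 ≤ M' := Nat.mul_pos (Nat.mul_pos two_pos hLv1) ht1
  obtain ⟨J, hJ1, hJ2⟩ := exists_pow_between hq2 hM'1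
  set T := dl b (p ^ s) J with hT
  have hTJ : (p ^ s) ^ J ≤ T := by
    rw [hT, dl_eq]
    calc (p ^ s) ^ J ≤ (p ^ s) ^ J * b := Nat.le_mul_of_pos_right _ hb1
      _ ≤ _ := Finset.single_le_sum (f := fun j => (p ^ s) ^ j * b) (fun _ _ => Nat.zero_le _)
          (Finset.mem_range.2 (Nat.lt_succ_self J))
  have hTM : M' ≤ T := hJ1.trans hTJ
  have hTr : (T : ℝ) = ∑ j ∈ Finset.range (J + 1), q ^ j * b := by
    rw [hT, dl_eq, hq]
    push_cast
    rfl
  have hqJ : q ^ J ≤ q * M' := by rw [hq]; exact_mod_cast hJ2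
  have hTle : (T : ℝ) ≤ 2 * b * q * M' := by
    rw [hTr, ← Finset.sum_mul]
    have := sum_geom_le hq2r J
    calc (∑ j ∈ Finset.range (J + 1), q ^ j) * b ≤ (2 * (q * M')) * b := by
          apply mul_le_mul_of_nonneg_right _ hbpos.le
          linarith
      _ = _ := by ring
  -- the Hilbert functions
  set yy : Fin Lv → (ι → L) := fun l => y l with hyy
  set n := HW K (joint yy) T with hn
  obtain ⟨hn1, l0, hnr0⟩ := count_core hDo hMo hIn K L ι (R := U ^ N') hLv1 hLv hTM yy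
    (fun l => hyne l) (fun l' l hll => hsep l' l hll l.2)
  obtain ⟨W, hW⟩ : ∃ W, U = W + 1 := ⟨U - 1, by omega⟩
  set r := U ^ N' * HW K (yy l0) T with hr
  have hnr : 2 * r ≤ n := hnr0
  have hnle : n ≤ (T + 1) ^ (Fintype.card ι) := HW_le_pow K _ T
  -- rows and forms
  obtain ⟨row, μ, hμ, hdet⟩ := hRo K L N hcardLN ι F b (p ^ s) J hF (hb J) Lv yy n hn
  set z : Fin n → (ι → N) := fun i => Z ((row i).1, (row i).2) with hzdef
  have hzdef' : ∀ i, (fun t => (row i).2 (yy (row i).1 t)) = z i := fun i => rfl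
  have hz0 : ∀ i, z i ≠ 0 := fun i => hZne _
  have hdet' : (Matrix.of fun i a => aeval (z i) (gQ F J (μ a))).det ≠ 0 := hdet
  set g : ℕ := U * (n - r) with hg
  have hloc : ∀ w ∈ S, w (Matrix.of fun i a => aeval (z i) (gQ F J (μ a))).det ≤
      (π w ^ Lv) ^ g * ∏ i, ∏ j ∈ Finset.range (J + 1), (⨆ l, w ((gAct F N)^[j] (z i) l)) ^ b := by
    intro w hw
    rw [hg, hW]
    refine hLo K N p s ι v w (e w) Φ (hS w hw) hϖ F hΦF n J b μ hμ z (L →ₐ[K] N)
      (fun φ => Z ((l0 : ℕ), φ)) (π w ^ Lv) (pow_nonneg (hπ0 w).le _)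
      (pow_le_one₀ (hπ0 w).le (hπ1 w hw).le) W r ?_ ?_ ?_
    · have h1 : U ≤ T := by
        calc U = U ^ 1 := (pow_one U).symm
          _ ≤ U ^ N' := Nat.pow_le_pow_right (by omega) (by omega)
          _ ≤ Lv := Nat.le_mul_of_pos_left _ hc01
          _ ≤ M' := by
            rw [hM', mul_comm 2 Lv, mul_assoc]
            exact Nat.le_mul_of_pos_right _ (Nat.mul_pos two_pos ht1)
          _ ≤ T := hTM
      omega
    · intro i
      obtain ⟨φ', h1⟩ := hkey w hw (row i).1 l0 (row i).2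
      exact ⟨φ', h1⟩
    · refine le_trans ?_ (le_of_eq hr.symm)
      rw [← hW]
      apply Nat.mul_le_mul_left
      refine (hRk K L N ι (y l0) (L →ₐ[K] N) (fun φ => φ) _).trans ?_
      exact hMo K L ι (y l0) (hyne l0) _ _ (Nat.sub_le _ _)
  have hen := hE3 K N ι (p ^ s) F hF hz n J b μ hμ z hz0 hdet' S (fun w => π w ^ Lv) g
    (fun w _ => pow_pos (hπ0 w) _) hloc
  -- left side
  set Hm : ℝ := q ^ (j0 + (k + 1) * Lv) * hx' with hHm
  have hHmz : ∀ a, hh (z a) ≤ Hm := by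
    intro a
    simp only [hzdef]
    rw [hhZ, hHm]
    have hl : ((row a).1 : ℕ) < Lv := (row a).1.2
    apply mul_le_mul_of_nonneg_right _ hx'nn
    apply pow_le_pow_right₀ (by linarith)
    have h1 : k * ((row a).1 : ℕ) ≤ k * Lv := Nat.mul_le_mul_left k hl.le
    have h2 : j0 + (k + 1) * Lv = j0 + Lv + k * Lv := by ring
    rw [h2]
    exact Nat.add_le_add (Nat.add_le_add_left (by omega) j0) h1
  have hHm0 : 0 < Hm := by positivity
  have hgr : (U : ℝ) * n / 2 ≤ g := by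
    have h1 : U * n ≤ 2 * g := by
      rw [hg]
      have h2 : n ≤ 2 * (n - r) := by omega
      calc U * n ≤ U * (2 * (n - r)) := Nat.mul_le_mul_left _ h2
        _ = _ := by ring
    have h2 : (U : ℝ) * n ≤ 2 * g := by exact_mod_cast h1
    linarith
  have hLvpos : (0 : ℝ) < Lv := by exact_mod_cast hLv1
  have hleft : (U : ℝ) * n / 2 * (Lv * (lam * Module.finrank ℚ N)) ≤
      ∑ w ∈ S, (g : ℝ) * (- Real.log (π w ^ Lv)) := by
    have h1 : ∑ w ∈ S, (g : ℝ) * (- Real.log (π w ^ Lv)) =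
        (g : ℝ) * (Lv * (Λ * ∑ w ∈ S, (e w : ℝ))) := by
      rw [Finset.mul_sum, Finset.mul_sum, Finset.mul_sum]
      refine Finset.sum_congr rfl fun w hw => ?_
      have h2 : Real.log (π w) = - (e w * Λ) := by
        change Real.log (w (algebraMap K N (Φ.ϖ : K))) = _
        rw [(hS w hw).2, Real.log_pow, hΛ]
        ring
      rw [Real.log_pow, h2]
      ring
    rw [h1]
    have h2 : (Module.finrank K N : ℝ) ≤ ∑ w ∈ S, (e w : ℝ) := by exact_mod_cast hcard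
    have h3 : lam * Module.finrank ℚ N ≤ Λ * ∑ w ∈ S, (e w : ℝ) := by
      rw [← htower, hlam]
      have h4 : Λ / (Module.finrank ℚ K) * ((Module.finrank ℚ K : ℝ) * Module.finrank K N) =
          Λ * Module.finrank K N := by
        field_simp
      rw [h4]
      exact mul_le_mul_of_nonneg_left h2 hΛ0.le
    have h5 : 0 ≤ lam * Module.finrank ℚ N := by positivity
    exact mul_le_mul hgr (mul_le_mul_of_nonneg_left h3 hLvpos.le)
      (mul_nonneg hLvpos.le h5) (Nat.cast_nonneg _)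
  -- right side
  have hn1r : (1 : ℝ) ≤ n := by exact_mod_cast hn1
  have hnpos : (0 : ℝ) < n := by linarith
  have hlogn : 0 ≤ Real.log n := Real.log_nonneg hn1r
  have hM'1r : (1 : ℝ) ≤ M' := by exact_mod_cast hM'1
  have hJlog : (J : ℝ) + 1 ≤ 2 + 2 * Real.log M' := relmain_jlog J q M' hq2r hM'1r hqJ
  have hright := heights_core F hh (C := C) (Hm := Hm) (b := (b : ℝ)) hq0.le hbpos.le hC0
    (fun z => by rw [abs_sub_comm]; exact hdiff z) hmuln hTr hJlog z hHmz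
  have hmain := (hleft.trans hen).trans hright
  have hmain2 : lam / 2 * (U * Lv) ≤ T * Hm + b * C * (2 + 2 * Real.log M') + Real.log n := by
    have h1 : (n * (Module.finrank ℚ N : ℝ)) * (lam / 2 * (U * Lv)) ≤
        (n * (Module.finrank ℚ N : ℝ)) *
          (T * Hm + b * C * (2 + 2 * Real.log M') + Real.log n) := by
      calc (n * (Module.finrank ℚ N : ℝ)) * (lam / 2 * (U * Lv)) =
          (U : ℝ) * n / 2 * (Lv * (lam * Module.finrank ℚ N)) := by ring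
        _ ≤ _ := hmain
        _ = _ := by ring
    exact le_of_mul_le_mul_left h1 (mul_pos hnpos hNpos)
  have hDposr : (0 : ℝ) < D := by linarith
  have ht1r : (1 : ℝ) ≤ t := by exact_mod_cast ht1
  have htpos : (0 : ℝ) < t := by linarith
  have hLv1r : (1 : ℝ) ≤ Lv := by exact_mod_cast hLv1
  have hU1r : (1 : ℝ) ≤ U := by exact_mod_cast hU1
  have hT1r : (1 : ℝ) ≤ T := by
    have : 1 ≤ T := hM'1.trans hTM
    exact_mod_cast this
  have hlogt : Real.log t ≤ Real.log (4 * q) + Real.log (D ^ 2) + Real.log a * (Lv + 1) :=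
    corex_logt hq2r ha hD1 htpos ht2
  have hlogn3 : Real.log n ≤ νr * Real.log ((T : ℝ) + 1) := by
    have h1 : (n : ℝ) ≤ ((T : ℝ) + 1) ^ (Fintype.card ι) := by exact_mod_cast hnle
    exact corex_logn hnpos h1
  have hM'eq : (M' : ℝ) = 2 * Lv * t := by rw [hM']; push_cast; ring
  have hkq : 0 ≤ Real.log a * ((Lv : ℝ) + 1) := by positivity
  have hD2 : (1 : ℝ) ≤ D ^ 2 := one_le_pow₀ hD1
  have hEn2 : C0 * (1 + Real.log a * ((Lv : ℝ) + 1) + Real.log (Lv * D ^ 2)) ≤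
      lam / 4 * (U * Lv) := corex_en hC00 hC1 hloga hDposr hLv1r hU2
  have hmain3 : lam ≤ 16 * b * q * t * Hm :=
    num_core (D := D ^ 2) (κ := Real.log a * ((Lv : ℝ) + 1)) hb1r hC0 hq2r hνr0 hD2 hLv1r ht1r
      hM'1r hn1r hU1r hHm0.le hlam0.le hkq hM'eq hlogt hTle hT1r hlogn3 hmain2 hEn2
  exact corex_fin hbpos hq0 hEpos htpos hx'nn hHm hqj0 hexp hmain3

end core

end Pool.DynLehmer.SH
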