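import Mathlib
import Pool.Agent.Lib.MP_2194ec_nt.SP.Iface

set_option autoImplicit false

/-!
# The sharp exponent in every dimension: statements of the modules
-/

namespace Pool.DynLehmer.SH
open MvPolynomial NumberField Pool.DynLehmer Pool.DynLehmer.SB Pool.DynLehmer.SP
open scoped Classical

/-! ## points with a small Hilbert function lie on curves of the same degree -/

/-- GREEN, a special case of Green's restriction theorem -/
def GreenStatement : Prop :=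
  ∀ (K : Type) [Field K] [Infinite K] (N : Type) [Field N] [Algebra K N] (ι : Type) [Fintype ι]
    (R : ι → N) (a : ι → K) (e : ℕ), (∑ i, a i • R i) ≠ 0 →
    HW K R (e + 1) ≤ HW K R e + (e + 1) →
    ∃ c : ι → K, (∑ i, c i • R i) ≠ 0 ∧ ∀ T, Fintype.card ι * (e + 1) ≤ T →
      ∀ b ∈ VW K R (T + 1), ∃ b' ∈ VW K R T, ∃ b'' ∈ VW K R T,
        b = (∑ i, a i • R i) * b' + (∑ i, c i • R i) * b''

/-- GROW, two consecutive equal differences of the Hilbert function -/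
def GrowStatement : Prop :=
  ∀ (K : Type) [Field K] [Infinite K] (N : Type) [Field N] [Algebra K N] (ι : Type) [Fintype ι]
    (R : ι → N) (w : ℕ), (∀ T, HW K R T ≤ w * (T + 1)) →
    (∃ T, 4 * (Fintype.card ι + 1) * w ^ 2 < HW K R T) →
    ∃ (a c : ι → K) (T : ℕ), (∑ i, a i • R i) ≠ 0 ∧ (∑ i, c i • R i) ≠ 0 ∧
      (∀ b ∈ VW K R (T + 1), ∃ b' ∈ VW K R T, ∃ b'' ∈ VW K R T,
        b = (∑ i, a i • R i) * b' + (∑ i, c i • R i) * b'') ∧
      (∀ b ∈ VW K R (T + 2), ∃ b' ∈ VW K R (T + 1), ∃ b'' ∈ VW K R (T + 1),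
        b = (∑ i, a i • R i) * b' + (∑ i, c i • R i) * b'') ∧
      (∀ b' ∈ VW K R (T + 1), ∀ b'' ∈ VW K R (T + 1),
        (∑ i, a i • R i) * b' + (∑ i, c i • R i) * b'' = 0 → ∃ b ∈ VW K R T,
          b' = (∑ i, c i • R i) * b ∧ b'' = - ((∑ i, a i • R i) * b)) ∧
      HW K R T < HW K R (T + 1) ∧ HW K R (T + 1) ≤ HW K R T + 2 * w ∧
      HW K R (T + 2) + HW K R T = 2 * HW K R (T + 1)

/-- DEFORM, the point lies on a curve whose coordinate ring agrees with that of the point in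
degree `T + 2` -/
def DeformStatement : Prop :=
  ∀ (K : Type) [Field K] (N : Type) [Field N] [Algebra K N] (ι : Type) [Fintype ι]
    (R : ι → N) (a c : ι → K) (T : ℕ), (∑ i, a i • R i) ≠ 0 → (∑ i, c i • R i) ≠ 0 →
    (∀ b ∈ VW K R (T + 1), ∃ b' ∈ VW K R T, ∃ b'' ∈ VW K R T,
      b = (∑ i, a i • R i) * b' + (∑ i, c i • R i) * b'') →
    (∀ b ∈ VW K R (T + 2), ∃ b' ∈ VW K R (T + 1), ∃ b'' ∈ VW K R (T + 1),
      b = (∑ i, a i • R i) * b' + (∑ i, c i • R i) * b'') →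
    (∀ b' ∈ VW K R (T + 1), ∀ b'' ∈ VW K R (T + 1),
      (∑ i, a i • R i) * b' + (∑ i, c i • R i) * b'' = 0 → ∃ b ∈ VW K R T,
        b' = (∑ i, c i • R i) * b ∧ b'' = - ((∑ i, a i • R i) * b)) →
    HW K R T < HW K R (T + 1) →
    ∃ (S : Type) (_ : CommRing S) (_ : IsDomain S) (_ : Algebra K S) (x : ι → S)
      (ρ : S →ₐ[K] N), (∀ i, (∑ j, c j • R j) * ρ (x i) = R i) ∧ (∑ i, c i • x i = 1) ∧
      Transcendental K (∑ i, a i • x i) ∧
      ∀ G : MvPolynomial ι K, G.IsHomogeneous (T + 2) → aeval R G = 0 → aeval x G = 0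

/-- CLIN, from a Hilbert function to a curve, with a linear bound for the degree -/
def ClinStatement : Prop :=
  ∀ (K : Type) [Field K] [Infinite K] (N : Type) [Field N] [Algebra K N] (ι : Type) [Fintype ι]
    (R : ι → N) (w : ℕ), (∀ T, HW K R T ≤ w * (T + 1)) →
    (∃ T, 4 * (Fintype.card ι + 1) * w ^ 2 < HW K R T) →
    ∃ (Ω : Type) (_ : Field Ω) (_ : Algebra K Ω) (x : ι → Ω),
      GenC K x (2 * w) ∧ SpecTo K x R

/-! ## separation of two levels -/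

/-- FIB, the degrees of the levels decrease slowly -/
def FibStatement : Prop :=
  ∀ (K : Type) [Field K] [NumberField K] (ι : Type) [Fintype ι] (q : ℕ)
    (F : ι → MvPolynomial ι K), 1 ≤ q → (∀ i, (F i).IsHomogeneous q) →
    (∀ z : ι → AlgebraicClosure K, (∀ i, aeval z (F i) = 0) → z = 0) →
    ∃ c : ℕ, 1 ≤ c ∧ ∀ (N : Type) [Field N] [Algebra K N] (y : ι → N), y ≠ 0 →
      ∀ j T : ℕ, ∃ T', HW K y T ≤ c ^ j * HW K ((gAct F N)^[j] y) T'

/-- SEPK, separated orbits and forms over `K` -/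
def SepkStatement : Prop :=
  ∀ (K N : Type) [Field K] [CharZero K] [Field N] [Algebra K N] [FiniteDimensional K N]
    [IsGalois K N] (ι : Type) [Fintype ι] (R R' : ι → N) (δ : ℕ), R ≠ 0 → R' ≠ 0 →
    OrbSep K δ R → (∀ σ : N ≃ₐ[K] N, ¬ ∃ c : N, c ≠ 0 ∧ R' = c • gal σ R) →
    ∃ f : MvPolynomial ι K, f.IsHomogeneous (δ + 1) ∧ aeval R f = 0 ∧ aeval R' f ≠ 0

/-- PAIR, two levels are separated by forms of small degree, or there is a periodic curve -/
def PairStatement : Prop :=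
  ∀ (K : Type) [Field K] [NumberField K] (ι : Type) [Fintype ι] [DecidableEq ι] [Nonempty ι]
    (q : ℕ) (F : ι → MvPolynomial ι K), 1 ≤ q → (∀ i, (F i).IsHomogeneous q) →
    (∀ z : ι → AlgebraicClosure K, (∀ i, aeval z (F i) = 0) → z = 0) →
    ∃ C : ℕ, 1 ≤ C ∧ ∀ (N : Type) [Field N] [Algebra K N] [FiniteDimensional K N]
      [IsGalois K N] (R : ι → N), R ≠ 0 → ¬ OnCurve F R → ∀ M : ℕ, 1 ≤ M →
      (idx (⊤ : Subgroup (N ≃ₐ[K] N)) R ≤ M ^ 2 ∨ ∀ T, HW K R T ≤ M * (T + 1)) →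
      ∀ j : ℕ, 1 ≤ j →
      (∀ σ : N ≃ₐ[K] N, ¬ ∃ c : N, c ≠ 0 ∧ (gAct F N)^[j] R = c • gal σ R) →
      ∀ δ : ℕ, (C : ℝ) ^ j * M * (1 + Real.log M) ≤ δ →
      ∃ f : MvPolynomial ι K, f.IsHomogeneous (δ + 1) ∧ aeval R f = 0 ∧
        aeval ((gAct F N)^[j] R) f ≠ 0

end Pool.DynLehmer.SH
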