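import Mathlib
import Pool.Agent.Lib.MP_2194ec_nt.SH.Corex
import Pool.Agent.Lib.MP_2194ec_nt.SH.Iface
import Pool.Agent.Lib.MP_2194ec_nt.SP.CaseA
import Pool.Agent.Lib.MP_2194ec_nt.SP.Final

set_option autoImplicit false

/-!
# The sharp exponent in every dimension: assembly
-/

namespace Pool.DynLehmer.SH
open MvPolynomial NumberField Pool.DynLehmer Pool.DynLehmer.SB Pool.DynLehmer.SP
open Filter Topology IsDedekindDomain
open scoped Classical Pointwise

/-- the setting of `core_wide` over a number field -/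
theorem exists_setting_gal {K : Type} [Field K] [NumberField K] {p : ℕ} (hp : p.Prime)
    (v : FinitePlace K) (hv : v (p : K) < 1) :
    ∃ f : ℕ, 1 ≤ f ∧ ∀ (L : Type) [Field L] [NumberField L] [Algebra K L],
      ∃ (N : Type) (_ : Field N) (_ : NumberField N) (_ : Algebra K N) (_ : IsGalois K N)
        (φ : L →ₐ[K] N)
        (S : Finset (FinitePlace N)) (e : FinitePlace N → ℕ) (τ : FinitePlace N → (N ≃ₐ[K] N)),
        Nat.card (L →ₐ[K] N) = Module.finrank K L ∧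
        (∀ w ∈ S, Above v w (e w)) ∧ (Module.finrank K N ≤ ∑ w ∈ S, e w) ∧
        (∀ w ∈ S, ∀ a : N, w a ≤ 1 → w (τ w a - a ^ (p ^ f)) < 1) ∧
        ∀ (ι : Type) [Fintype ι] (x : ι → L), x ≠ 0 →
          idx (⊤ : Subgroup (N ≃ₐ[K] N)) (fun t => φ (x t)) ≤ Module.finrank K L := by
  obtain ⟨f, hf1, hf⟩ := exists_card_eq v hp hv
  refine ⟨f, hf1, ?_⟩
  intro L _ _ _
  let N := IntermediateField.normalClosure K L (AlgebraicClosure L)
  have hfdKL : FiniteDimensional K L := Module.Finite.of_restrictScalars_finite ℚ K L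
  have hfd : FiniteDimensional K N := normalClosure.is_finiteDimensional K L (AlgebraicClosure L)
  have hNnf : NumberField N := NumberField.of_module_finite K N
  have hnormal : Normal K N := normalClosure.normal K L (AlgebraicClosure L)
  have hgal : IsGalois K N := ⟨⟩
  obtain ⟨S, e, hS, hsum⟩ := exists_above v N
  have hτ : ∀ w ∈ S, ∃ τ : N ≃ₐ[K] N, ∀ a : N, w a ≤ 1 → w (τ a - a ^ (p ^ f)) < 1 := by
    intro w hw
    have hprime : w.maximalIdeal.asIdeal.IsPrime := w.maximalIdeal.isPrime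
    have hfinq : Finite (𝓞 N ⧸ w.maximalIdeal.asIdeal) :=
      Ideal.finiteQuotientOfFreeOfNeBot _ w.maximalIdeal.ne_bot
    obtain ⟨σ, hσ⟩ := IsArithFrobAt.exists_of_isInvariant (𝓞 K) (N ≃ₐ[K] N)
      w.maximalIdeal.asIdeal
    refine ⟨σ, frob_place σ w _ ?_⟩
    intro x
    have h2 := hσ x
    rw [above_under (hS w hw), hf] at h2
    exact h2
  choose! τ hτ using hτ
  have hcard : Nat.card (L →ₐ[K] N) = Module.finrank K L := by
    rw [Nat.card_eq_fintype_card]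
    refine AlgHom.card_of_splits K L N fun x => ?_
    have h1 : minpoly K x = minpoly K (algebraMap L N x) :=
      (minpoly.algebraMap_eq (algebraMap L N).injective x).symm
    rw [h1]
    exact Normal.splits inferInstance _
  refine ⟨N, inferInstance, hNnf, inferInstance, hgal, IsScalarTower.toAlgHom K L N, S, e, τ,
    hcard, hS, hsum.ge, hτ, ?_⟩
  intro ι _ x hx
  rw [← fixGroup_top]
  exact idx_le_finrank (M := K) x hx

section hw

variable {K : Type} [Field K] {ι : Type} [Fintype ι]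

theorem HW_iter {L : Type} [Field L] [Algebra K L] {q : ℕ} (F : ι → MvPolynomial ι K)
    (hF : ∀ i, (F i).IsHomogeneous q) (x : ι → L) (r T : ℕ) :
    HW K ((gAct F L)^[r] x) T ≤ HW K x (T * q ^ r) := by
  have hfdV : FiniteDimensional K (homogeneousSubmodule ι K (T * q ^ r)) :=
    Module.Finite.iff_fg.2 (homogeneousSubmodule_fg ι K _)
  have hfd : FiniteDimensional K (VW K x (T * q ^ r)) := by
    rw [VW]; infer_instance
  refine Submodule.finrank_mono ?_
  rintro _ ⟨G, hG, rfl⟩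
  refine ⟨(bind₁ F)^[r] G, ?_, ?_⟩
  · exact CaseaAux.hom_bind_iter F hF r hG
  · exact CaseaAux.aeval_bind_iter F r x G

theorem HW_map {L N : Type} [Field L] [Algebra K L] [Field N] [Algebra K N] (φ : L →ₐ[K] N)
    (x : ι → L) (T : ℕ) : HW K (fun t => φ (x t)) T ≤ HW K x T := by
  refine CaseaAux.hw_le_of_imp _ _ T fun G _ h0 => ?_
  have h1 := DFunLike.congr_fun (comp_aeval x φ) G
  have h2 : aeval (fun t => φ (x t)) G = φ (aeval x G) := h1.symm
  rw [h2, h0, map_zero]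

end hw

/-- the numerical part of the assembly -/
theorem num_final {θ B0 q m M X Cl Ql : ℝ} {c' : ℕ} (hθ : 1 / 2 ≤ θ) (hθ1 : θ ≤ 1) (hB0 : 0 ≤ B0)
    (hq : 2 ≤ q) (hm : 1 ≤ m) (hX : X = 1 + (Real.log m) ^ θ) (hM1 : 1 ≤ M)
    (hM : M ≤ 2 * q * (Ql * m)) (hQ1 : 1 ≤ Ql) (hQ : Ql ≤ Real.exp (B0 * X))
    (hCl : Cl ≤ Ql ^ c') :
    3 * (Cl * M * (1 + Real.log M)) ≤
      6 * q * (3 + Real.log (2 * q) + B0) * (m * Real.exp ((c' * B0 + B0 + 2) * X)) := by
  have hlogm : 0 ≤ Real.log m := Real.log_nonneg hm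
  have hpow : 0 ≤ (Real.log m) ^ θ := Real.rpow_nonneg hlogm _
  have hX1 : 1 ≤ X := by rw [hX]; linarith
  have hlogq : 0 ≤ Real.log (2 * q) := Real.log_nonneg (by linarith)
  have hXm : 1 + Real.log m ≤ X ^ 2 := by
    rw [hX]
    rcases le_or_gt (Real.log m) 1 with h1 | h1
    · have h2 : Real.log m ≤ (Real.log m) ^ θ := by
        rcases eq_or_lt_of_le hlogm with h3 | h3
        · rw [← h3]; exact Real.rpow_nonneg le_rfl _
        · calc Real.log m = (Real.log m) ^ (1 : ℝ) := (Real.rpow_one _).symm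
            _ ≤ _ := Real.rpow_le_rpow_of_exponent_ge h3 h1 hθ1
      nlinarith
    · have h2 : (Real.log m) ^ (1 / 2 : ℝ) ≤ (Real.log m) ^ θ :=
        Real.rpow_le_rpow_of_exponent_le h1.le hθ
      have h3 : ((Real.log m) ^ (1 / 2 : ℝ)) ^ 2 = Real.log m := by
        rw [← Real.sqrt_eq_rpow, Real.sq_sqrt hlogm]
      have h4 : 0 ≤ (Real.log m) ^ (1 / 2 : ℝ) := Real.rpow_nonneg hlogm _
      nlinarith
  have hX2 : X ^ 2 ≤ Real.exp (2 * X) := by
    have h1 : X ≤ Real.exp X := by linarith [Real.add_one_le_exp X]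
    have h2 : Real.exp (2 * X) = Real.exp X ^ 2 := by rw [← Real.exp_nat_mul]; norm_num
    rw [h2]
    exact pow_le_pow_left₀ (by linarith) h1 2
  have hlogM : Real.log M ≤ Real.log (2 * q) + B0 * X + Real.log m := by
    have h1 := Real.log_le_log (by linarith) hM
    rw [Real.log_mul (x := 2 * q) (by positivity) (by positivity),
      Real.log_mul (x := Ql) (by positivity) (by positivity)] at h1
    have h2 : Real.log Ql ≤ B0 * X := by
      rw [Real.log_le_iff_le_exp (by linarith)]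
      exact hQ
    linarith
  have hlM : 1 + Real.log M ≤ (3 + Real.log (2 * q) + B0) * Real.exp (2 * X) := by
    have h1 : (3 + Real.log (2 * q) + B0) * X ^ 2 ≤
        (3 + Real.log (2 * q) + B0) * Real.exp (2 * X) :=
      mul_le_mul_of_nonneg_left hX2 (by linarith)
    refine le_trans ?_ h1
    have h2 : X ≤ X ^ 2 := by nlinarith
    have h3 : B0 * X ≤ B0 * X ^ 2 := mul_le_mul_of_nonneg_left h2 hB0
    have h4 : Real.log (2 * q) * 1 ≤ Real.log (2 * q) * X ^ 2 :=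
      mul_le_mul_of_nonneg_left (by nlinarith) hlogq
    nlinarith
  have hCM : Cl * M ≤ 2 * q * (m * Real.exp ((c' * B0 + B0) * X)) := by
    have h1 : Ql ^ c' ≤ Real.exp (c' * (B0 * X)) := by
      rw [Real.exp_nat_mul]
      exact pow_le_pow_left₀ (by linarith) hQ c'
    calc Cl * M ≤ Real.exp (c' * (B0 * X)) * (2 * q * (Real.exp (B0 * X) * m)) := by
          apply mul_le_mul (hCl.trans h1) (hM.trans _) (by linarith) (Real.exp_nonneg _)
          gcongr
      _ = 2 * q * (m * (Real.exp (c' * (B0 * X)) * Real.exp (B0 * X))) := by ring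
      _ = _ := by rw [← Real.exp_add]; congr 3; ring
  have hlM0 : 0 ≤ 1 + Real.log M := by
    have := Real.log_nonneg hM1
    linarith
  calc 3 * (Cl * M * (1 + Real.log M))
      ≤ 3 * ((2 * q * (m * Real.exp ((c' * B0 + B0) * X))) *
          ((3 + Real.log (2 * q) + B0) * Real.exp (2 * X))) := by
        apply mul_le_mul_of_nonneg_left _ (by norm_num)
        exact mul_le_mul hCM hlM hlM0 (by positivity)
    _ = 6 * q * (3 + Real.log (2 * q) + B0) *
        (m * (Real.exp ((c' * B0 + B0) * X) * Real.exp (2 * X))) := by ring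
    _ = _ := by rw [← Real.exp_add]; congr 3; ring

/-- **The sharp exponent in every dimension**, for the map itself. -/
theorem sharp_space (hDo : DoubStatement) (hMo : MonoStatement) (hIn : IndepStatement)
    (hRo : RowsStatement) (hRk : RankStatement) (hLo : LocalStatement) (hE3 : Energy3Statement)
    (hEn : EndgStatement) (hPair : PairStatement)
    {K : Type} [Field K] [NumberField K] {p s : ℕ} {ι : Type} [Fintype ι] [DecidableEq ι]
    [Nonempty ι] (hι : 2 ≤ Fintype.card ι)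
    (hp : p.Prime) (hs : 1 ≤ s) (v : FinitePlace K)
    (P : ι → MvPolynomial ι K) (hP : ∀ i, (P i).IsHomogeneous (p ^ s))
    (hv : v (p : K) < 1) (hint : ∀ i t, v (coeff t (P i)) ≤ 1)
    (hred : ∀ i t, (∀ j, t ≠ Finsupp.single j (p ^ s)) → v (coeff t (P i)) < 1)
    (hdet : v (Matrix.det (Matrix.of fun i j => coeff (Finsupp.single j (p ^ s)) (P i))) = 1) :
    ∃ A B : ℝ, 0 < A ∧ 0 < B ∧ ∀ (E : ℕ), 1 ≤ E →
      ∀ (L : Type) [Field L] [NumberField L] [Algebra K L],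
      (∀ Q : Ideal (𝓞 L), Q.IsPrime → Q.LiesOver v.maximalIdeal.asIdeal →
        ¬ (v.maximalIdeal.asIdeal.map (algebraMap (𝓞 K) (𝓞 L)) ≤ Q ^ (E + 1))) →
      ∀ x : ι → L, x ≠ 0 →
      (¬ ∃ m n : ℕ, m ≠ n ∧ ∃ c : L, c ≠ 0 ∧ (gAct P L)^[n] x = c • (gAct P L)^[m] x) →
      ¬ OnCurve P x →
      ∃ h : ℝ, Tendsto (fun n : ℕ => Height.logHeight ((gAct P L)^[n] x) /
        (Module.finrank ℚ L : ℝ) / ((p ^ s : ℕ) : ℝ) ^ n) atTop (𝓝 h) ∧
        ∀ m : ℝ, (Real.sqrt (Module.finrank K L) ≤ m ∨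
            ∃ u : ℕ, (∀ T, HW K x T ≤ u * (T + 1)) ∧ (E : ℝ) * u ≤ m) →
          A / ((E : ℝ) * m) * Real.exp (-(B * (1 + (Real.log m) ^
            (((Fintype.card ι - 1 : ℕ) : ℝ) / (((Fintype.card ι - 1 : ℕ) : ℝ) + 1))))) ≤ h := by
  obtain ⟨Φ, hΦP, hϖ0, hϖ, hunif⟩ := exists_GF v hp P hP hv hint hred hdet
  have hzP := gno_common_zero hp Φ hϖ P hΦP
  obtain ⟨f, hf1, hf⟩ := exists_setting_gal hp v hv
  obtain ⟨k, hk1, hcore0⟩ := core_wide hDo hMo hIn hRo hRk hLo hE3 hEn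
    hι hp hs v Φ hϖ hϖ0 P hP hzP hΦP f hf1
  have hq2 : 2 ≤ p ^ s := hp.two_le.trans (Nat.le_self_pow (by omega) p)
  have hq2r : (2 : ℝ) ≤ ((p ^ s : ℕ) : ℝ) := by exact_mod_cast hq2
  obtain ⟨C, hC1, hpair⟩ := hPair K ι (p ^ s) P (by omega) hP hzP
  set q : ℝ := ((p ^ s : ℕ) : ℝ) with hq
  have hq0 : 0 < q := by linarith
  have hC1r : (1 : ℝ) ≤ C := by exact_mod_cast hC1
  obtain ⟨c', hc'⟩ : ∃ c' : ℕ, (C : ℝ) ≤ q ^ c' := by
    obtain ⟨c', hc'⟩ := pow_unbounded_of_one_lt (C : ℝ) (show (1 : ℝ) < q by linarith)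
    exact ⟨c', hc'.le⟩
  set Qk : ℝ := q ^ (k + 1) with hQk
  have hQk1 : (1 : ℝ) ≤ Qk := one_le_pow₀ (by linarith)
  have hCk1 : (1 : ℝ) ≤ (C : ℝ) ^ k := one_le_pow₀ hC1r
  set a : ℝ := 12 * q ^ 2 * ((C : ℝ) ^ k * Qk ^ 2) with ha
  have ha1 : 1 ≤ a := by
    have h1 : (1 : ℝ) ≤ (C : ℝ) ^ k * Qk ^ 2 :=
      one_le_mul_of_one_le_of_one_le hCk1 (one_le_pow₀ hQk1)
    have h2 : (1 : ℝ) ≤ 12 * q ^ 2 := by nlinarith
    exact one_le_mul_of_one_le_of_one_le h2 h1
  obtain ⟨A0, B0, hA0, hB0, hcore⟩ := hcore0 a ha1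
  set θ : ℝ := ((Fintype.card ι - 1 : ℕ) : ℝ) / (((Fintype.card ι - 1 : ℕ) : ℝ) + 1) with hθ
  have hN1 : (1 : ℝ) ≤ ((Fintype.card ι - 1 : ℕ) : ℝ) := by
    have : 1 ≤ Fintype.card ι - 1 := by omega
    exact_mod_cast this
  have hθ12 : 1 / 2 ≤ θ := by
    rw [hθ, div_le_div_iff₀ (by norm_num) (by linarith)]
    linarith
  have hθ1 : θ ≤ 1 := by
    rw [hθ, div_le_one (by linarith)]
    linarith
  have hlogq : 0 ≤ Real.log (2 * q) := Real.log_nonneg (by linarith)
  set G : ℝ := 6 * q * (3 + Real.log (2 * q) + B0) with hG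
  have hG0 : 0 < G := by positivity
  refine ⟨A0 / G, (c' * B0 + B0 + 2) + B0, by positivity, by positivity, ?_⟩
  intro E hE L _ _ _ hram x hx hwand hper
  obtain ⟨N, _, _, _, _, φ0, S, e, τ, hcardLN, hS, hcard, hτ, hidx⟩ := hf L
  obtain ⟨h, hlim, hhpos, hcoreD⟩ := hcore L N S e τ E hE hcardLN hS
    hcard hτ (fun w hw φ a ha => ram_embedding (hS w hw) hunif φ
      (fun u e₁ hu _ => hram _ u.maximalIdeal.isPrime (above_liesOver hu)) a ha) x hx hwand
  refine ⟨h, hlim, ?_⟩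
  intro m hm
  have hfdKL : FiniteDimensional K L := Module.Finite.of_restrictScalars_finite ℚ K L
  have hfdKN : FiniteDimensional K N := Module.Finite.of_restrictScalars_finite ℚ K N
  set D : ℕ := Module.finrank K L with hD
  have hDpos : 1 ≤ D := Module.finrank_pos
  have hD1 : (1 : ℝ) ≤ D := by exact_mod_cast hDpos
  have hE1 : (1 : ℝ) ≤ E := by exact_mod_cast hE
  have hEpos : (0 : ℝ) < E := by linarith
  have hm1 : 1 ≤ m := by
    rcases hm with hm | ⟨u, hu, hle⟩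
    · refine le_trans ?_ hm
      rw [Real.one_le_sqrt]
      exact hD1
    · have h1 : 1 ≤ u := by
        have h2 := (one_le_HW_zero K x).trans (hu 0)
        omega
      have h1 : (1 : ℝ) ≤ u := by exact_mod_cast h1
      exact (one_le_mul_of_one_le_of_one_le hE1 h1).trans hle
  obtain ⟨r0, Lv, hLv1, hexp, hr0, hnc, hbd⟩ := hcoreD m hm1
  set X : ℝ := 1 + (Real.log m) ^ θ with hX
  set Ql : ℝ := q ^ ((k + 1) * Lv) with hQl
  have hQl1 : (1 : ℝ) ≤ Ql := one_le_pow₀ (by linarith)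
  have hQlk : Ql = Qk ^ Lv := by rw [hQl, hQk, ← pow_mul]
  set y : ℕ → (ι → L) := fun l => (gAct P L)^[r0 + k * l] x with hy
  have hyne : ∀ l, y l ≠ 0 := fun l => gAct_iter_ne P hP hzP _ _ hx
  -- the size of the orbits
  obtain ⟨M, hM1, hM2, hM⟩ : ∃ M : ℕ, 1 ≤ M ∧ (M : ℝ) ≤ 2 * q * (Ql * m) ∧ ∀ l < Lv,
      (idx (⊤ : Subgroup (N ≃ₐ[K] N)) (fun t => φ0 (y l t)) ≤ M ^ 2 ∨
        ∀ T, HW K (fun t => φ0 (y l t)) T ≤ M * (T + 1)) := by
    have hceil : ∀ z : ℝ, 1 ≤ z → 1 ≤ ⌈z⌉₊ ∧ ((⌈z⌉₊ : ℕ) : ℝ) ≤ 2 * z := by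
      intro z hz
      refine ⟨Nat.one_le_iff_ne_zero.2 (fun h0 => ?_), ?_⟩
      · rw [Nat.ceil_eq_zero] at h0
        linarith
      · have := (Nat.ceil_lt_add_one (a := z) (by linarith)).le
        linarith
    rcases hm with hm | ⟨u, hu, hle⟩
    · obtain ⟨h1, h2⟩ := hceil m hm1
      refine ⟨⌈m⌉₊, h1, ?_, fun l _ => Or.inl ?_⟩
      · refine h2.trans ?_
        have h3 : (1 : ℝ) ≤ q * Ql := one_le_mul_of_one_le_of_one_le (by linarith) hQl1
        calc 2 * m = 2 * (1 * m) := by ring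
          _ ≤ 2 * ((q * Ql) * m) := by gcongr
          _ = _ := by ring
      · refine (hidx ι (y l) (hyne l)).trans ?_
        have h3 : (D : ℝ) ≤ m ^ 2 := by
          have h4 := Real.sqrt_le_left (y := m) (x := (D : ℝ)) (by linarith)
          exact (Real.sqrt_le_left (by linarith)).1 hm
        have h4 : m ^ 2 ≤ ((⌈m⌉₊ : ℕ) : ℝ) ^ 2 :=
          pow_le_pow_left₀ (by linarith) (Nat.le_ceil m) 2
        exact_mod_cast h3.trans h4
    · obtain ⟨h1, h2⟩ := hceil (q * (Ql * m)) (one_le_mul_of_one_le_of_one_le (by linarith)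
        (one_le_mul_of_one_le_of_one_le hQl1 hm1))
      refine ⟨⌈q * (Ql * m)⌉₊, h1, by linarith, fun l hl => Or.inr fun T => ?_⟩
      refine (HW_map φ0 (y l) T).trans ((HW_iter P hP x _ T).trans ((hu _).trans ?_))
      have h3 : u * (T * (p ^ s) ^ (r0 + k * l) + 1) ≤ (u * (p ^ s) ^ (r0 + k * l)) * (T + 1) := by
        have h4 : 1 ≤ (p ^ s) ^ (r0 + k * l) := Nat.one_le_pow _ _ (by omega)
        calc u * (T * (p ^ s) ^ (r0 + k * l) + 1)
            ≤ u * (T * (p ^ s) ^ (r0 + k * l) + (p ^ s) ^ (r0 + k * l)) := by gcongr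
          _ = _ := by ring
      refine h3.trans (Nat.mul_le_mul_right _ ?_)
      have h5 : ((u * (p ^ s) ^ (r0 + k * l) : ℕ) : ℝ) ≤ q * (Ql * m) := by
        have h6 : ((u * (p ^ s) ^ (r0 + k * l) : ℕ) : ℝ) = u * q ^ (r0 + k * l) := by
          rw [hq]; push_cast; ring
        rw [h6]
        calc (u : ℝ) * q ^ (r0 + k * l) = u * q ^ (k * l) * q ^ r0 := by rw [pow_add]; ring
          _ ≤ u * q ^ (k * Lv) * (q * E * q ^ Lv) := by
              gcongr
              linarith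
          _ = q * ((q ^ Lv * q ^ (k * Lv)) * (E * u)) := by ring
          _ = q * (Ql * (E * u)) := by
              rw [← pow_add, hQl]; congr 3; ring
          _ ≤ _ := by gcongr
      exact_mod_cast h5.trans (Nat.le_ceil _)
  have hM1r : (1 : ℝ) ≤ M := by exact_mod_cast hM1
  have hlogM : 0 ≤ Real.log M := Real.log_nonneg hM1r
  -- the degree of the separating forms
  set Cl : ℝ := (C : ℝ) ^ (k * Lv) with hCl
  have hCl1 : (1 : ℝ) ≤ Cl := one_le_pow₀ hC1r
  have hClQ : Cl ≤ Ql ^ c' := by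
    calc Cl = (C : ℝ) ^ (k * Lv) := rfl
      _ ≤ (q ^ c') ^ (k * Lv) := pow_le_pow_left₀ (by linarith) hc' _
      _ ≤ (q ^ c') ^ ((k + 1) * Lv) :=
          pow_le_pow_right₀ (one_le_pow₀ (by linarith)) (Nat.mul_le_mul_right _ (by omega))
      _ = Ql ^ c' := by rw [hQl, ← pow_mul, ← pow_mul]; congr 1; ring
  set z : ℝ := Cl * M * (1 + Real.log M) with hz
  have hz1 : 1 ≤ z := one_le_mul_of_one_le_of_one_le
    (one_le_mul_of_one_le_of_one_le hCl1 hM1r) (by linarith)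
  set δ : ℕ := ⌈z⌉₊ with hδ
  have hδz : z ≤ δ := Nat.le_ceil z
  have hδz' : (δ : ℝ) ≤ z + 1 := (Nat.ceil_lt_add_one (by linarith)).le
  have ht3 : (((δ + 1 : ℕ)) : ℝ) ≤ 3 * z := by
    push_cast
    linarith
  have hcond : (((δ + 1 : ℕ)) : ℝ) ≤ a ^ (Lv + 1) * m ^ 2 := by
    have h1 : 1 + Real.log M ≤ M := by
      have := Real.log_le_sub_one_of_pos (show (0 : ℝ) < M by linarith)
      linarith
    have h2 : z ≤ Cl * (4 * q ^ 2 * (Ql ^ 2 * m ^ 2)) := by
      calc z = Cl * (M * (1 + Real.log M)) := by rw [hz]; ring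
        _ ≤ Cl * ((2 * q * (Ql * m)) * (2 * q * (Ql * m))) := by
            apply mul_le_mul_of_nonneg_left _ (by linarith)
            exact mul_le_mul hM2 (h1.trans hM2) (by linarith) (by positivity)
        _ = _ := by ring
    have h3 : 3 * z ≤ 12 * q ^ 2 * (((C : ℝ) ^ k * Qk ^ 2) ^ Lv) * m ^ 2 := by
      calc 3 * z ≤ 3 * (Cl * (4 * q ^ 2 * (Ql ^ 2 * m ^ 2))) := by linarith
        _ = 12 * q ^ 2 * (Cl * Ql ^ 2) * m ^ 2 := by ring
        _ = _ := by
            rw [mul_pow, hCl, hQlk, ← pow_mul (C : ℝ), ← pow_mul Qk Lv 2, ← pow_mul Qk 2 Lv,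
              mul_comm Lv 2]
    have h4 : 12 * q ^ 2 * (((C : ℝ) ^ k * Qk ^ 2) ^ Lv) ≤ a ^ (Lv + 1) := by
      have h5 : ((C : ℝ) ^ k * Qk ^ 2) ≤ a := by
        rw [ha]
        have h6 : (1 : ℝ) ≤ 12 * q ^ 2 := by nlinarith
        exact le_mul_of_one_le_left (by positivity) h6
      have h7 : 12 * q ^ 2 ≤ a := by
        rw [ha]
        exact le_mul_of_one_le_right (by positivity)
          (one_le_mul_of_one_le_of_one_le hCk1 (one_le_pow₀ hQk1))
      calc 12 * q ^ 2 * (((C : ℝ) ^ k * Qk ^ 2) ^ Lv) ≤ a * a ^ Lv := by gcongr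
        _ = _ := by ring
    calc _ ≤ 3 * z := ht3
      _ ≤ _ := h3
      _ ≤ _ := by gcongr
  -- separation
  have hsep : ∀ l' l : ℕ, l' < l → l < Lv → ∃ f : MvPolynomial ι K, f.IsHomogeneous (δ + 1) ∧
      aeval (y l') f = 0 ∧ aeval (y l) f ≠ 0 := by
    intro l' l hll hl
    have hyl : y l = (gAct P L)^[k * (l - l')] (y l') := by
      have h0 : k * l = k * (l - l') + k * l' := by
        rw [← mul_add]; congr 1; omega
      have h1 : r0 + k * l = k * (l - l') + (r0 + k * l') := by omega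
      simp only [hy]
      rw [h1, Function.iterate_add_apply]
    have hR0 : (fun t => φ0 (y l' t)) ≠ 0 := by
      intro h0
      apply hyne l'
      funext t
      have := congrFun h0 t
      simpa using this
    have hiter : (gAct P N)^[k * (l - l')] (fun t => φ0 (y l' t)) = fun t => φ0 (y l t) := by
      rw [gAct_iter_map P φ0, hyl]
    obtain ⟨g, hg, hg0, hg1⟩ := hpair N (fun t => φ0 (y l' t)) hR0
      (fun hcon => hper (OnCurve.of_iter (OnCurve.of_map φ0 hcon))) M hM1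
      (hM l' (hll.trans hl)) (k * (l - l')) (Nat.mul_pos hk1 (by omega)) (by
        rintro σ ⟨c, hc, h1⟩
        rw [hiter] at h1
        exact hnc l l' (by omega) φ0 ((σ : N →ₐ[K] N).comp φ0) ⟨c, h1⟩) δ (by
        refine le_trans ?_ hδz
        rw [hz]
        apply mul_le_mul_of_nonneg_right _ (by linarith)
        apply mul_le_mul_of_nonneg_right _ (by linarith)
        exact pow_le_pow_right₀ hC1r (Nat.mul_le_mul_left k (by omega)))
    have hφ : ∀ z : ι → L, aeval (fun t => φ0 (z t)) g = φ0 (aeval z g) := fun z =>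
      (DFunLike.congr_fun (comp_aeval z φ0) g).symm
    refine ⟨g, hg, ?_, ?_⟩
    · rw [hφ] at hg0
      exact (map_eq_zero φ0).1 hg0
    · rw [hiter, hφ] at hg1
      intro h0
      exact hg1 (by rw [h0, map_zero])
  have h1 := hbd (δ + 1) (by omega) hcond hsep
  refine le_trans ?_ h1
  have hnum := num_final (c' := c') hθ12 hθ1 hB0.le hq2r hm1 hX hM1r hM2 hQl1 hexp hClQ
  have ht4 : (((δ + 1 : ℕ)) : ℝ) ≤ G * (m * Real.exp ((c' * B0 + B0 + 2) * X)) :=
    ht3.trans hnum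
  have htpos : (0 : ℝ) < ((δ + 1 : ℕ) : ℝ) := by positivity
  calc A0 / G / ((E : ℝ) * m) * Real.exp (-(((c' * B0 + B0 + 2) + B0) * X))
      = A0 / ((E : ℝ) * (G * (m * Real.exp ((c' * B0 + B0 + 2) * X)))) *
          Real.exp (-(B0 * X)) := by
        have h5 : Real.exp (-(((c' * B0 + B0 + 2) + B0) * X)) =
            Real.exp (-(B0 * X)) / Real.exp ((c' * B0 + B0 + 2) * X) := by
          rw [← Real.exp_sub]; congr 1; ring
        rw [h5]
        have hm0 : m ≠ 0 := by linarith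
        field_simp
    _ ≤ _ := by
        apply mul_le_mul_of_nonneg_right _ (Real.exp_nonneg _)
        apply div_le_div_of_nonneg_left hA0.le (by positivity)
        exact mul_le_mul_of_nonneg_left ht4 hEpos.le

/-- **The sharp exponent in every dimension**, for commuting maps. -/
theorem sharp_space_all (hDo : DoubStatement) (hMo : MonoStatement) (hIn : IndepStatement)
    (hRo : RowsStatement) (hRk : RankStatement) (hLo : LocalStatement) (hE3 : Energy3Statement)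
    (hEn : EndgStatement) (hPair : PairStatement)
    {K : Type} [Field K] [NumberField K] {d p s : ℕ} (hd : 2 ≤ d) {ι : Type} [Fintype ι]
    [DecidableEq ι] [Nonempty ι] (hι : 2 ≤ Fintype.card ι)
    (F : ι → MvPolynomial ι K) (hF : ∀ i, (F i).IsHomogeneous d)
    (hz : ∀ z : ι → AlgebraicClosure K, (∀ i, aeval z (F i) = 0) → z = 0)
    (hp : p.Prime) (hs : 1 ≤ s) (v : FinitePlace K)
    (P : ι → MvPolynomial ι K) (hP : ∀ i, (P i).IsHomogeneous (p ^ s))
    (hv : v (p : K) < 1) (hint : ∀ i t, v (coeff t (P i)) ≤ 1)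
    (hred : ∀ i t, (∀ j, t ≠ Finsupp.single j (p ^ s)) → v (coeff t (P i)) < 1)
    (hdet : v (Matrix.det (Matrix.of fun i j => coeff (Finsupp.single j (p ^ s)) (P i))) = 1)
    (hc : ∀ i j, bind₁ P (F i) * bind₁ F (P j) = bind₁ P (F j) * bind₁ F (P i)) :
    ∃ A B : ℝ, 0 < A ∧ 0 < B ∧ ∀ (E : ℕ), 1 ≤ E →
      ∀ (L : Type) [Field L] [NumberField L] [Algebra K L],
      (∀ Q : Ideal (𝓞 L), Q.IsPrime → Q.LiesOver v.maximalIdeal.asIdeal →
        ¬ (v.maximalIdeal.asIdeal.map (algebraMap (𝓞 K) (𝓞 L)) ≤ Q ^ (E + 1))) →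
      ∀ x : ι → L, x ≠ 0 →
      (¬ ∃ m n : ℕ, m ≠ n ∧ ∃ c : L, c ≠ 0 ∧ (gAct F L)^[n] x = c • (gAct F L)^[m] x) →
      ¬ OnCurve P x →
      ∃ h : ℝ, Tendsto (fun n : ℕ => Height.logHeight ((gAct F L)^[n] x) /
        (Module.finrank ℚ L : ℝ) / (d : ℝ) ^ n) atTop (𝓝 h) ∧
        ∀ m : ℝ, (Real.sqrt (Module.finrank K L) ≤ m ∨
            ∃ u : ℕ, (∀ T, HW K x T ≤ u * (T + 1)) ∧ (E : ℝ) * u ≤ m) →
          A / ((E : ℝ) * m) * Real.exp (-(B * (1 + (Real.log m) ^
            (((Fintype.card ι - 1 : ℕ) : ℝ) / (((Fintype.card ι - 1 : ℕ) : ℝ) + 1))))) ≤ h := by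
  obtain ⟨Φ, hΦP, hϖ0, hϖ, hunif⟩ := exists_GF v hp P hP hv hint hred hdet
  have hzP := gno_common_zero hp Φ hϖ P hΦP
  obtain ⟨A, B, hA, hB, H⟩ := sharp_space hDo hMo hIn hRo hRk hLo hE3 hEn hPair
    hι hp hs v P hP hv hint hred hdet
  refine ⟨A, B, hA, hB, ?_⟩
  intro E hE L _ _ _ hram x hx hwand hper
  have hq2 : 2 ≤ p ^ s := hp.two_le.trans (Nat.le_self_pow (by omega) p)
  obtain ⟨hwandP, htrans⟩ := commute_transfer hd hq2 F P hF hP hz hzP hc L x hx hwand
  obtain ⟨h, hlim, hle⟩ := H E hE L hram x hx hwandP hper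
  exact ⟨h, htrans h hlim, hle⟩

end Pool.DynLehmer.SH
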